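import Pool.Agent.Lib_helper68.MC.Defs

/-! Project MC (MP_b08f5f_an), block GA: the Gaussian and the Gibbs inequality. -/

set_option autoImplicit false

namespace Pool.Agent.Lib_helper68.MC

open MeasureTheory Filter Topology Set
open scoped ComplexConjugate ENNReal NNReal

noncomputable section

theorem GA_exp : ∫ x : ℂ, Real.exp (-‖x‖ ^ 2) = Real.pi := by
  have h := Complex.integral_exp_neg_rpow (p := 2) (by norm_num)
  simp only [Real.rpow_ofNat] at h
  rw [h]
  norm_num [Real.Gamma_two]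

theorem GA_sq : ∫ x : ℂ, ‖x‖ ^ 2 * Real.exp (-‖x‖ ^ 2) = Real.pi := by
  have h := Complex.integral_rpow_mul_exp_neg_rpow (p := 2) (q := 2) (by norm_num) (by norm_num)
  simp only [Real.rpow_ofNat] at h
  rw [h]
  norm_num [Real.Gamma_two]

theorem GA_int_exp : Integrable fun x : ℂ => Real.exp (-‖x‖ ^ 2) :=
  Integrable.of_integral_ne_zero (by rw [GA_exp]; exact Real.pi_ne_zero)

theorem GA_int_sq : Integrable fun x : ℂ => ‖x‖ ^ 2 * Real.exp (-‖x‖ ^ 2) :=
  Integrable.of_integral_ne_zero (by rw [GA_sq]; exact Real.pi_ne_zero)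

theorem GA_pos (x : ℂ) : 0 < gau x := by unfold gau; positivity

theorem GA_log (x : ℂ) : Real.log (gau x) = -Real.log Real.pi - ‖x‖ ^ 2 := by
  unfold gau
  rw [Real.log_mul (inv_ne_zero Real.pi_ne_zero) (Real.exp_pos _).ne', Real.log_inv, Real.log_exp]
  ring

theorem GA_meas : Measurable gau := by unfold gau; fun_prop

theorem GA_int : Integrable gau := GA_int_exp.const_mul _

theorem GA_one : ∫ x, gau x = 1 := by
  unfold gau
  rw [integral_const_mul, GA_exp, inv_mul_cancel₀ Real.pi_ne_zero]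

theorem GA_mom : Integrable fun x => ‖x‖ ^ 2 * gau x := by
  have h := GA_int_sq.const_mul Real.pi⁻¹
  refine h.congr (Eventually.of_forall fun x => ?_)
  simp only [gau]
  ring

theorem GA_mo : mo gau = 1 := by
  have h : ∀ x : ℂ, ‖x‖ ^ 2 * gau x = Real.pi⁻¹ * (‖x‖ ^ 2 * Real.exp (-‖x‖ ^ 2)) := by
    intro x
    simp only [gau]
    ring
  unfold mo
  simp_rw [h]
  rw [integral_const_mul, GA_sq, inv_mul_cancel₀ Real.pi_ne_zero]

theorem GA_ent_eq (x : ℂ) :
    gau x * Real.log (gau x) = -Real.log Real.pi * gau x - ‖x‖ ^ 2 * gau x := by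
  rw [GA_log]
  ring

theorem GA_ent : Integrable fun x => gau x * Real.log (gau x) := by
  simp_rw [GA_ent_eq]
  exact (GA_int.const_mul _).sub GA_mom

theorem GA_sent : Sent gau = 1 + Real.log Real.pi := by
  unfold Sent
  simp_rw [GA_ent_eq]
  rw [integral_sub (GA_int.const_mul _) GA_mom, integral_const_mul, GA_one]
  have : ∫ x, ‖x‖ ^ 2 * gau x = 1 := GA_mo
  rw [this]
  ring

theorem GA_mean : mean gau = 0 := by
  unfold mean
  have h : ∫ x : ℂ, ((gau x : ℝ) : ℂ) * x = ∫ x : ℂ, -(((gau x : ℝ) : ℂ) * x) := by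
    rw [← integral_neg_eq_self (fun x : ℂ => ((gau x : ℝ) : ℂ) * x) volume]
    congr 1
    funext x
    simp only [gau, norm_neg]
    ring
  rw [integral_neg] at h
  exact self_eq_neg.mp h

theorem GA_dens : Dens gau ∧ mo gau = 1 ∧ mean gau = 0 ∧ Sent gau = 1 + Real.log Real.pi :=
  ⟨⟨GA_meas, fun x => (GA_pos x).le, GA_int, GA_one, GA_ent, GA_mom⟩, GA_mo, GA_mean, GA_sent⟩

/-- `a log a - a log b - a + b ≥ 0` for `a ≥ 0`, `b > 0`, with equality only for `a = b` -/
theorem GA_point {a b : ℝ} (ha : 0 ≤ a) (hb : 0 < b) :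
    0 ≤ a * Real.log a - a * Real.log b - a + b ∧
      (a * Real.log a - a * Real.log b - a + b = 0 → a = b) := by
  rcases ha.eq_or_lt with rfl | ha
  · simp only [zero_mul, sub_zero, zero_add]
    exact ⟨hb.le, fun h => h.symm⟩
  · have h1 : a * Real.log a - a * Real.log b - a + b = a * (b / a - 1 - Real.log (b / a)) := by
      rw [Real.log_div hb.ne' ha.ne']
      field_simp
      ring
    rw [h1]
    constructor
    · have := Real.log_le_sub_one_of_pos (div_pos hb ha)
      exact mul_nonneg ha.le (by linarith)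
    · intro h
      by_contra hne
      have h2 : b / a ≠ 1 := by
        intro h3
        exact hne ((div_eq_one_iff_eq ha.ne').mp h3).symm
      have h3 := Real.log_lt_sub_one_of_pos (div_pos hb ha) h2
      have h4 : 0 < a * (b / a - 1 - Real.log (b / a)) := mul_pos ha (by linarith)
      linarith

theorem GA_max {ρ : ℂ → ℝ} (h : Dens ρ) (hm : mo ρ ≤ 1) (hne : ¬ ρ =ᵐ[volume] gau) :
    Sent ρ < Sent gau := by
  set φ : ℂ → ℝ := fun x => ρ x * Real.log (ρ x) - ρ x * Real.log (gau x) - ρ x + gau x with hφ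
  have e : ∀ x, φ x = ρ x * Real.log (ρ x) + (Real.log Real.pi - 1) * ρ x + ‖x‖ ^ 2 * ρ x +
      gau x := by
    intro x
    simp only [hφ]
    rw [GA_log]
    ring
  have i1 : Integrable fun x => ρ x * Real.log (ρ x) + (Real.log Real.pi - 1) * ρ x :=
    h.ent.add (h.int.const_mul _)
  have i2 : Integrable fun x => ρ x * Real.log (ρ x) + (Real.log Real.pi - 1) * ρ x +
      ‖x‖ ^ 2 * ρ x := i1.add h.mom
  have i3 : Integrable φ := by
    rw [show φ = fun x => ρ x * Real.log (ρ x) + (Real.log Real.pi - 1) * ρ x + ‖x‖ ^ 2 * ρ x +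
      gau x from funext e]
    exact i2.add GA_int
  have hI : ∫ x, φ x = -Sent ρ + Real.log Real.pi + mo ρ := by
    simp_rw [e]
    rw [integral_add i2 GA_int, integral_add i1 h.mom, integral_add h.ent (h.int.const_mul _),
      integral_const_mul, h.one, GA_one]
    unfold Sent mo
    ring
  have h0 : 0 ≤ φ := fun x => (GA_point (h.nonneg x) (GA_pos x)).1
  have h1 : 0 < ∫ x, φ x := by
    refine lt_of_le_of_ne (integral_nonneg h0) fun h2 => hne ?_
    have h3 := (integral_eq_zero_iff_of_nonneg h0 i3).mp h2.symm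
    filter_upwards [h3] with x hx
    exact (GA_point (h.nonneg x) (GA_pos x)).2 hx
  rw [GA_sent]
  linarith

/-- the Gaussian is radial -/
theorem GA_rot (a : ℂ) (ha : ‖a‖ = 1) (x : ℂ) : gau (a * x) = gau x := by
  unfold gau
  rw [norm_mul, ha, one_mul]

end

end Pool.Agent.Lib_helper68.MC
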