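import Pool.Agent.Lib_helper85.MC.DV
import Pool.Agent.Lib_helper51.MC.RE
import Pool.Agent.Lib_helper58.MC.WD
import Pool.Agent.Lib_helper75.MC.TO
import Pool.Agent.Lib_helper65.MC.GA
import Pool.Agent.Lib_helper68.MC.DefsD

/-! Project MC (MP_b08f5f_an), identification: existence of entropy maximisers (block EX). The
scheme of the proof (ultrafilter on a maximising sequence) is helper49's. -/

set_option autoImplicit false

namespace Pool.Agent.Lib_helper68.MC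

open MeasureTheory Filter Topology Set
open scoped ComplexConjugate ENNReal NNReal
open Pool.Agent.Lib_helper25.PV (Conf vel Motion centre inertia NC VFlow)
open Pool.Agent.Lib_helper12.HE (ham rad nrm Gam sig shell turn one LimAvg)

noncomputable section

theorem EX_wt_int {f : ℂ → ℝ} (hf : Continuous f) {C : ℝ} (hC : ∀ x, |f x| ≤ C) {α : ℝ}
    (hα : 0 < α) : Integrable (wt α f) := by
  have h1 : Integrable (fun x : ℂ => Real.exp (-α * ‖x‖ ^ 2)) := by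
    have := GaussianFourier.integrable_cexp_neg_mul_sq_norm_add (V := ℂ) (b := (α : ℂ))
      (by simpa using hα) 0 0
    refine this.norm.congr (ae_of_all _ fun x => ?_)
    simp only [inner_zero_left, zero_mul, add_zero]
    rw [Complex.norm_exp]
    congr 1
    simp [← Complex.ofReal_pow]
  refine Integrable.mono' (h1.const_mul (Real.exp C)) ?_ (ae_of_all _ fun x => ?_)
  · unfold wt
    exact (Real.continuous_exp.comp (hf.sub (continuous_const.mul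
      (continuous_norm.pow 2)))).aestronglyMeasurable
  · unfold wt
    rw [Real.norm_eq_abs, abs_of_pos (Real.exp_pos _), ← Real.exp_add]
    refine Real.exp_le_exp.2 ?_
    have := (abs_le.1 (hC x)).2
    linarith

theorem EX_wt_pos {f : ℂ → ℝ} (hf : Continuous f) {C : ℝ} (hC : ∀ x, |f x| ≤ C) {α : ℝ}
    (hα : 0 < α) : 0 < ∫ x, wt α f x := by
  refine (integral_pos_iff_support_of_nonneg (f := wt α f) (fun x => (Real.exp_pos _).le)
    (EX_wt_int hf hC hα)).2 ?_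
  have : Function.support (wt α f) = univ := by
    ext x
    simp [wt, Real.exp_ne_zero]
  rw [this]
  simp

/-- the Gibbs inequality for bounded `f` -/
theorem EX_gibbsB {ρ : ℂ → ℝ} (h : Dens ρ) {f : ℂ → ℝ} (hf : Continuous f) {C : ℝ}
    (hC : ∀ x, |f x| ≤ C) {α : ℝ} (hα : 0 < α) :
    Sent ρ ≤ Real.log (∫ x, wt α f x) - (∫ x, f x * ρ x) + α * mo ρ := by
  set Z : ℝ := ∫ x, wt α f x with hZ
  have hZ0 : 0 < Z := EX_wt_pos hf hC hα
  have hwi := EX_wt_int hf hC hα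
  have hfi : Integrable fun x => f x * ρ x := by
    refine Integrable.mono' (h.int.const_mul C) ?_ (ae_of_all _ fun x => ?_)
    · exact (hf.measurable.mul h.meas).aestronglyMeasurable
    · rw [norm_mul, Real.norm_eq_abs, Real.norm_eq_abs, abs_of_nonneg (h.nonneg x)]
      exact mul_le_mul_of_nonneg_right (hC x) (h.nonneg x)
  have hpt : ∀ x, (f x * ρ x - α * (‖x‖ ^ 2 * ρ x) - Real.log Z * ρ x) + ρ x - Z⁻¹ * wt α f x ≤
      ρ x * Real.log (ρ x) := by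
    intro x
    have hw : 0 < Z⁻¹ * wt α f x := mul_pos (inv_pos.2 hZ0) (Real.exp_pos _)
    have hl : Real.log (Z⁻¹ * wt α f x) = f x - α * ‖x‖ ^ 2 - Real.log Z := by
      unfold wt
      rw [Real.log_mul (inv_pos.2 hZ0).ne' (Real.exp_pos _).ne', Real.log_inv, Real.log_exp]
      ring
    rcases (h.nonneg x).eq_or_lt with h0 | h0
    · rw [← h0]
      simp only [mul_zero, sub_zero, add_zero, zero_sub, zero_mul]
      linarith
    · have h1 := Real.log_le_sub_one_of_pos (div_pos hw h0)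
      rw [Real.log_div hw.ne' h0.ne', hl] at h1
      have h2 : ρ x * (Z⁻¹ * wt α f x / ρ x - 1) = Z⁻¹ * wt α f x - ρ x := by
        field_simp
      have h3 := mul_le_mul_of_nonneg_left h1 h0.le
      rw [h2] at h3
      nlinarith
  have i1 : Integrable fun x => f x * ρ x - α * (‖x‖ ^ 2 * ρ x) := hfi.sub (h.mom.const_mul α)
  have i2 : Integrable fun x => f x * ρ x - α * (‖x‖ ^ 2 * ρ x) - Real.log Z * ρ x :=
    i1.sub (h.int.const_mul _)
  have i3 : Integrable fun x => (f x * ρ x - α * (‖x‖ ^ 2 * ρ x) - Real.log Z * ρ x) + ρ x :=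
    i2.add h.int
  have i4 : Integrable fun x => (f x * ρ x - α * (‖x‖ ^ 2 * ρ x) - Real.log Z * ρ x) + ρ x -
      Z⁻¹ * wt α f x := i3.sub (hwi.const_mul _)
  have hint := integral_mono i4 h.ent hpt
  rw [integral_sub i3 (hwi.const_mul _), integral_add i2 h.int, integral_sub i1 (h.int.const_mul _),
    integral_sub hfi (h.mom.const_mul α), integral_const_mul, integral_const_mul,
    integral_const_mul, h.one, ← hZ, inv_mul_cancel₀ hZ0.ne'] at hint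
  have e1 : Sent ρ = -∫ x, ρ x * Real.log (ρ x) := rfl
  have e2 : mo ρ = ∫ x, ‖x‖ ^ 2 * ρ x := rfl
  rw [e1, e2]
  linarith

theorem EX_gibbs {ρ : ℂ → ℝ} (h : Dens ρ) {f : ℂ → ℝ} (hf : Continuous f)
    (hfc : HasCompactSupport f) {α : ℝ} (hα : 0 < α) :
    Sent ρ ≤ Real.log (∫ y, wt α f y) - (∫ x, f x * ρ x) + α * mo ρ := by
  obtain ⟨C, hC⟩ := hfc.exists_bound_of_continuous hf
  exact EX_gibbsB h hf (C := C) (fun x => by
    have := hC x
    rwa [Real.norm_eq_abs] at this) hα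

theorem EX_KK {ρ : ℂ → ℝ} (h : Dens ρ) (hm : mo ρ ≤ 1) : ∫⁻ x, ‖x‖ₑ ^ 2 ∂(wd ρ) ≤ 1 := by
  unfold wd
  rw [lintegral_withDensity_eq_lintegral_mul₀]
  · have h1 : ∫⁻ x : ℂ, ((fun x : ℂ => ENNReal.ofReal (ρ x)) *
        (fun x : ℂ => ‖x‖ₑ ^ 2 : ℂ → ℝ≥0∞)) x = ∫⁻ x : ℂ, ENNReal.ofReal (‖x‖ ^ 2 * ρ x) := by
      refine lintegral_congr fun x => ?_
      simp only [Pi.mul_apply]
      rw [mul_comm, ENNReal.ofReal_mul (by positivity), ENNReal.ofReal_pow (norm_nonneg _),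
        ofReal_norm]
    rw [h1, ← ofReal_integral_eq_lintegral_ofReal h.mom
      (ae_of_all _ fun x => mul_nonneg (by positivity) (h.nonneg x)), ← ENNReal.ofReal_one]
    exact ENNReal.ofReal_le_ofReal hm
  · exact (ENNReal.measurable_ofReal.comp h.meas).aemeasurable
  · exact (measurable_enorm.pow_const 2).aemeasurable

theorem EX_Sent_congr {ρ σ : ℂ → ℝ} (h : ρ =ᵐ[volume] σ) : Sent ρ = Sent σ := by
  unfold Sent
  congr 1
  refine integral_congr_ae ?_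
  filter_upwards [h] with x hx
  rw [hx]

/-- the probability measure with density `ρ` -/
def EX_P (ρ : ℂ → ℝ) (h : Dens ρ) : ProbabilityMeasure ℂ := ⟨wd ρ, WD_prob h⟩

theorem EX_P_coe {ρ : ℂ → ℝ} (h : Dens ρ) : ((EX_P ρ h : ProbabilityMeasure ℂ) : Measure ℂ) = wd ρ :=
  rfl

/-- A maximising sequence converges along an ultrafilter to a density whose entropy is at least
the supremum. -/
theorem EX_core {P : (ℂ → ℝ) → Prop} (hne : ∃ ρ, Dens ρ ∧ mo ρ ≤ 1 ∧ P ρ) :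
    ∃ (M : ℝ) (ρs : ℕ → ℂ → ℝ) (hd : ∀ n, Dens (ρs n)) (ρ : ℂ → ℝ) (hρ : Dens ρ),
      (∀ n, mo (ρs n) ≤ 1) ∧ (∀ n, P (ρs n)) ∧ (∀ n, M - 1 ≤ Sent (ρs n)) ∧
      (∀ ρ', Dens ρ' → mo ρ' ≤ 1 → P ρ' → Sent ρ' ≤ M) ∧ mo ρ ≤ 1 ∧ M ≤ Sent ρ ∧
      Tendsto (fun n => EX_P (ρs n) (hd n)) (Filter.hyperfilter ℕ : Filter ℕ) (𝓝 (EX_P ρ hρ)) := by
  classical
  set S : Set ℝ := {s | ∃ ρ, Dens ρ ∧ mo ρ ≤ 1 ∧ P ρ ∧ Sent ρ = s} with hS
  have hSne : S.Nonempty := by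
    obtain ⟨δ, d1, d2, d3⟩ := hne
    exact ⟨Sent δ, δ, d1, d2, d3, rfl⟩
  have hbd : BddAbove S := by
    refine ⟨Sent gau, ?_⟩
    rintro s ⟨ρ, h1, h2, -, rfl⟩
    by_cases he : ρ =ᵐ[volume] gau
    · exact (EX_Sent_congr he).le
    · exact (GA_max h1 h2 he).le
  set M : ℝ := sSup S with hM
  have hseq : ∀ n : ℕ, ∃ ρ, Dens ρ ∧ mo ρ ≤ 1 ∧ P ρ ∧ M - 1 / ((n : ℝ) + 1) < Sent ρ := by
    intro n
    obtain ⟨s, ⟨ρ, h1, h2, h3, rfl⟩, hs⟩ := exists_lt_of_lt_csSup hSne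
      (show M - 1 / ((n : ℝ) + 1) < sSup S from by
        have : 0 < 1 / ((n : ℝ) + 1) := by positivity
        linarith)
    exact ⟨ρ, h1, h2, h3, hs⟩
  choose ρs h1 h2 h3 h4 using hseq
  set μs : ℕ → ProbabilityMeasure ℂ := fun n => EX_P (ρs n) (h1 n) with hμs
  have hK : ∀ n, μs n ∈ KK := fun n => EX_KK (h1 n) (h2 n)
  set U : Ultrafilter ℕ := Filter.hyperfilter ℕ with hU
  obtain ⟨μ, hμ, hlim⟩ := TO_compact.ultrafilter_le_nhds' (U.map μs)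
    (by
      show μs ⁻¹' KK ∈ U
      exact Filter.univ_mem' hK)
  have hlim' : Tendsto μs (U : Filter ℕ) (𝓝 μ) := hlim
  have hU0 : Tendsto (fun n : ℕ => 1 / ((n : ℝ) + 1)) (U : Filter ℕ) (𝓝 0) :=
    tendsto_one_div_add_atTop_nhds_zero_nat.mono_left Nat.hyperfilter_le_atTop
  have hex : ∃ ρ, Dens ρ ∧ (μ : Measure ℂ) = wd ρ ∧ M ≤ Sent ρ := by
    by_contra hcon
    have key : (∃ ρ, Dens ρ ∧ (μ : Measure ℂ) = wd ρ ∧ Sent ρ < M) ∨
        ¬ ∃ ρ, Dens ρ ∧ (μ : Measure ℂ) = wd ρ := by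
      by_cases hd : ∃ ρ, Dens ρ ∧ (μ : Measure ℂ) = wd ρ
      · obtain ⟨ρ, k1, k2⟩ := hd
        left
        refine ⟨ρ, k1, k2, ?_⟩
        by_contra hlt
        exact hcon ⟨ρ, k1, k2, not_lt.1 hlt⟩
      · right
        exact hd
    obtain ⟨α, hα, f, hf, hfc, hlt⟩ := DV_main (μ : Measure ℂ) hμ M key
    obtain ⟨C, hC⟩ := hfc.exists_bound_of_continuous hf
    have hC' : ∀ x, |f x| ≤ C := fun x => by
      have := hC x
      rwa [Real.norm_eq_abs] at this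
    have hcont : Tendsto (fun n : ℕ => ∫ x, f x ∂(μs n : Measure ℂ)) (U : Filter ℕ)
        (𝓝 (∫ x, f x ∂(μ : Measure ℂ))) := by
      have := (ProbabilityMeasure.continuous_integral_boundedContinuousFunction
        (BoundedContinuousFunction.ofNormedAddCommGroup f hf C hC)).tendsto μ
      exact this.comp hlim'
    have hge : ∀ n : ℕ, M - 1 / ((n : ℝ) + 1) ≤
        Real.log (∫ x, wt α f x) - ∫ x, f x ∂(μs n : Measure ℂ) + α := by
      intro n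
      have k1 := EX_gibbsB (h1 n) hf hC' hα
      have k2 : ∫ x, f x ∂(μs n : Measure ℂ) = ∫ x, f x * ρs n x := WD_integral (h1 n) f
      have k3 := h2 n
      have k4 := h4 n
      rw [k2]
      nlinarith
    have hl : Tendsto (fun n : ℕ => M - 1 / ((n : ℝ) + 1)) (U : Filter ℕ) (𝓝 (M - 0)) :=
      tendsto_const_nhds.sub hU0
    have hr : Tendsto (fun n : ℕ => Real.log (∫ x, wt α f x) - ∫ x, f x ∂(μs n : Measure ℂ) + α)
        (U : Filter ℕ) (𝓝 (Real.log (∫ x, wt α f x) - ∫ x, f x ∂(μ : Measure ℂ) + α)) :=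
      (tendsto_const_nhds.sub hcont).add tendsto_const_nhds
    have := le_of_tendsto_of_tendsto' hl hr hge
    linarith
  obtain ⟨ρ, k1, k2, k3⟩ := hex
  have hmo : mo ρ ≤ 1 := WD_mo k1 (by rw [← k2]; exact hμ)
  have hμρ : μ = EX_P ρ k1 := Subtype.ext k2
  refine ⟨M, ρs, h1, ρ, k1, h2, h3, fun n => ?_, fun ρ' m1 m2 m3 => ?_, hmo, k3, ?_⟩
  · have e1 := h4 n
    have e2 : 1 / ((n : ℝ) + 1) ≤ 1 := by
      rw [div_le_one (by positivity)]
      have : (0 : ℝ) ≤ n := n.cast_nonneg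
      linarith
    linarith
  · exact le_csSup hbd ⟨ρ', m1, m2, m3, rfl⟩
  · rw [← hμρ]
    exact hlim'

theorem EX_low {e : ℝ} (hne : ∃ ρ, Dens ρ ∧ mo ρ ≤ 1 ∧ En ρ ρ ≤ e) :
    ∃ ρ, Dens ρ ∧ mo ρ ≤ 1 ∧ En ρ ρ ≤ e ∧
      ∀ ρ', Dens ρ' → mo ρ' ≤ 1 → En ρ' ρ' ≤ e → Sent ρ' ≤ Sent ρ := by
  obtain ⟨M, ρs, hd, ρ, hρ, h2, h3, h4, h5, hm, hS, hlim⟩ :=
    EX_core (P := fun ρ => En ρ ρ ≤ e) hne
  refine ⟨ρ, hρ, hm, ?_, fun ρ' m1 m2 m3 => (h5 ρ' m1 m2 m3).trans hS⟩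
  refine le_of_forall_pos_le_add fun κ hκ => ?_
  obtain ⟨r, hr, -, hrl⟩ := RE_lim hρ (κ := κ / 2) (by positivity)
  have hK : EX_P ρ hρ ∈ KK := EX_KK hρ hm
  obtain ⟨V, hV, hμV, hV'⟩ := RE_cont hr hK (κ := κ / 2) (by positivity)
  obtain ⟨n, hn⟩ := (hlim.eventually (hV.mem_nhds hμV)).exists
  have e1 := hV' _ hn (EX_KK (hd n) (h2 n))
  have e2 : ∫ p, ker r (p.1 - p.2) ∂((wd (ρs n)).prod (wd (ρs n))) ≤ En (ρs n) (ρs n) :=
    RE_le (hd n) hr
  have e3 : En (ρs n) (ρs n) ≤ e := h3 n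
  have e4 := (abs_le.1 e1).1
  simp only [EX_P_coe] at e4
  linarith

/-- the high side, from a uniform bound on the near part of the energy -/
theorem EX_highN (hnear : ∀ (C : ℝ) {κ : ℝ}, 0 < κ → ∃ r : ℝ, 0 < r ∧ r ≤ 1 ∧ ∀ ρ : ℂ → ℝ,
      Dens ρ → mo ρ ≤ 1 → -C ≤ Sent ρ →
      En ρ ρ ≤ (∫ p, ker r (p.1 - p.2) ∂((wd ρ).prod (wd ρ))) + κ)
    {e : ℝ} (hne : ∃ ρ, Dens ρ ∧ mo ρ ≤ 1 ∧ e ≤ En ρ ρ) :
    ∃ ρ, Dens ρ ∧ mo ρ ≤ 1 ∧ e ≤ En ρ ρ ∧
      ∀ ρ', Dens ρ' → mo ρ' ≤ 1 → e ≤ En ρ' ρ' → Sent ρ' ≤ Sent ρ := by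
  obtain ⟨M, ρs, hd, ρ, hρ, h2, h3, h4, h5, hm, hS, hlim⟩ :=
    EX_core (P := fun ρ => e ≤ En ρ ρ) hne
  refine ⟨ρ, hρ, hm, ?_, fun ρ' m1 m2 m3 => (h5 ρ' m1 m2 m3).trans hS⟩
  refine le_of_forall_pos_le_add fun κ hκ => ?_
  obtain ⟨r, hr, -, hrl⟩ := hnear (1 - M) (κ := κ / 2) (by positivity)
  have hK : EX_P ρ hρ ∈ KK := EX_KK hρ hm
  obtain ⟨V, hV, hμV, hV'⟩ := RE_cont hr hK (κ := κ / 2) (by positivity)
  obtain ⟨n, hn⟩ := (hlim.eventually (hV.mem_nhds hμV)).exists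
  have e1 := hV' _ hn (EX_KK (hd n) (h2 n))
  have e2 := hrl (ρs n) (hd n) (h2 n) (by have := h4 n; linarith)
  have e3 : e ≤ En (ρs n) (ρs n) := h3 n
  have e4 := (abs_le.1 e1).2
  have e5 : ∫ p, ker r (p.1 - p.2) ∂((wd ρ).prod (wd ρ)) ≤ En ρ ρ := RE_le hρ hr
  simp only [EX_P_coe] at e4
  linarith

/-! ### the near part of the energy -/

theorem EX_g_symm (x y : ℂ) : EN_g (x - y) = EN_g (y - x) := by
  unfold EN_g
  by_cases hb : x - y ∈ Metric.ball (0 : ℂ) 1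
  · have hb' : y - x ∈ Metric.ball (0 : ℂ) 1 := by
      rw [mem_ball_zero_iff] at hb ⊢
      rwa [norm_sub_rev]
    rw [indicator_of_mem hb, indicator_of_mem hb', norm_sub_rev]
  · have hb' : y - x ∉ Metric.ball (0 : ℂ) 1 := by
      rw [mem_ball_zero_iff] at hb ⊢
      rwa [norm_sub_rev]
    rw [indicator_of_notMem hb, indicator_of_notMem hb']

theorem EX_conv {f : ℂ → ℝ} (hf : Integrable f) :
    Integrable (fun p : ℂ × ℂ => f p.2 * EN_g (p.1 - p.2)) ∧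
      ∫ p : ℂ × ℂ, f p.2 * EN_g (p.1 - p.2) = (∫ x, f x) * ∫ x, EN_g x := by
  have hi : Integrable (fun p : ℂ × ℂ => f p.2 * EN_g (p.1 - p.2)) := by
    have := hf.convolution_integrand (ContinuousLinearMap.mul ℝ ℝ) EN_g_int
    exact this
  refine ⟨hi, ?_⟩
  have hi' : Integrable (fun p : ℂ × ℂ => f p.2 * EN_g (p.1 - p.2))
      ((volume : Measure ℂ).prod volume) := hi
  rw [Measure.volume_eq_prod, integral_prod_symm _ hi', ← integral_mul_const]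
  refine integral_congr_ae (ae_of_all _ fun y => ?_)
  show ∫ x, f y * EN_g (x - y) = f y * ∫ x, EN_g x
  rw [integral_const_mul, integral_sub_right_eq_self]

theorem EX_conv' {f : ℂ → ℝ} (hf : Integrable f) :
    Integrable (fun p : ℂ × ℂ => f p.1 * EN_g (p.1 - p.2)) ∧
      ∫ p : ℂ × ℂ, f p.1 * EN_g (p.1 - p.2) = (∫ x, f x) * ∫ x, EN_g x := by
  obtain ⟨h1, h2⟩ := EX_conv hf
  have e : (fun p : ℂ × ℂ => f p.1 * EN_g (p.1 - p.2)) =
      (fun p : ℂ × ℂ => f p.2 * EN_g (p.1 - p.2)) ∘ Prod.swap := by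
    ext p
    simp only [Function.comp, Prod.fst_swap, Prod.snd_swap]
    rw [EX_g_symm]
  refine ⟨?_, ?_⟩
  · rw [e]
    exact Integrable.swap h1
  · rw [e, ← h2]
    exact MeasureTheory.integral_prod_swap (μ := (volume : Measure ℂ))
      (ν := (volume : Measure ℂ)) fun p : ℂ × ℂ => f p.2 * EN_g (p.1 - p.2)

/-- the positive part of `ρ log ρ` -/
def EX_h (ρ : ℂ → ℝ) : ℂ → ℝ := fun x => max (ρ x * Real.log (ρ x)) 0

theorem EX_h_nonneg (ρ : ℂ → ℝ) (x : ℂ) : 0 ≤ EX_h ρ x := le_max_right _ _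

theorem EX_h_int {ρ : ℂ → ℝ} (h : Dens ρ) : Integrable (EX_h ρ) := h.ent.pos_part

theorem EX_h_le {ρ : ℂ → ℝ} (h : Dens ρ) (hm : mo ρ ≤ 1) {C : ℝ} (hC : -C ≤ Sent ρ) :
    ∫ x, EX_h ρ x ≤ C + 1 + Real.pi := by
  obtain ⟨gd, -, -, -⟩ := GA_dens
  have hpt : ∀ x, EX_h ρ x ≤ (ρ x * Real.log (ρ x) + ‖x‖ ^ 2 * ρ x) + Real.pi * gau x := by
    intro x
    have h0 := h.nonneg x
    have e1 : Real.pi * gau x = Real.exp (-‖x‖ ^ 2) := by
      unfold gau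
      rw [← mul_assoc, mul_inv_cancel₀ Real.pi_pos.ne', one_mul]
    have e2 := EN_young h0 (-‖x‖ ^ 2)
    have e3 := Real.exp_pos (-‖x‖ ^ 2)
    have e4 : 0 ≤ ‖x‖ ^ 2 * ρ x := mul_nonneg (by positivity) h0
    rw [e1]
    refine max_le ?_ ?_
    · linarith
    · nlinarith
  have hint := integral_mono (EX_h_int h) ((h.ent.add h.mom).add (gd.int.const_mul Real.pi)) hpt
  have e1 : ∫ x, ((ρ x * Real.log (ρ x) + ‖x‖ ^ 2 * ρ x) + Real.pi * gau x) =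
      (∫ x, ρ x * Real.log (ρ x)) + (∫ x, ‖x‖ ^ 2 * ρ x) + Real.pi * 1 := by
    have j1 : Integrable (fun x => ρ x * Real.log (ρ x) + ‖x‖ ^ 2 * ρ x) := h.ent.add h.mom
    rw [integral_add j1 (gd.int.const_mul Real.pi), integral_const_mul, gd.one,
      integral_add h.ent h.mom]
  have e2 : Sent ρ = -∫ x, ρ x * Real.log (ρ x) := rfl
  have e3 : mo ρ = ∫ x, ‖x‖ ^ 2 * ρ x := rfl
  have e4 : ∫ x, EX_h ρ x ≤ (∫ x, ρ x * Real.log (ρ x)) + (∫ x, ‖x‖ ^ 2 * ρ x) + Real.pi * 1 :=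
    hint.trans_eq e1
  linarith

/-- the pointwise bound for the near part -/
theorem EX_near_pt {ρ : ℂ → ℝ} (h : Dens ρ) {r K : ℝ} (hr : 0 < r) (hr1 : r ≤ 1) (hK : 0 < K)
    (p : ℂ × ℂ) (hp : p.1 - p.2 ≠ 0) :
    (Real.log (max ‖p.1 - p.2‖ r) - Real.log ‖p.1 - p.2‖) * (ρ p.1 * ρ p.2) ≤
      r * (ρ p.2 * EN_g (p.1 - p.2)) + Real.exp K * r * (EX_h ρ p.1 * EN_g (p.1 - p.2)) +
        K⁻¹ * (EX_h ρ p.1 * EX_h ρ p.2) := by
  have ha := h.nonneg p.1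
  have hb := h.nonneg p.2
  have hg := EN_g_nonneg (p.1 - p.2)
  have h1 := EX_h_nonneg ρ p.1
  have h2 := EX_h_nonneg ρ p.2
  have hd : 0 < ‖p.1 - p.2‖ := norm_pos_iff.2 hp
  have t1 : 0 ≤ r * (ρ p.2 * EN_g (p.1 - p.2)) := by positivity
  have t2 : 0 ≤ Real.exp K * r * (EX_h ρ p.1 * EN_g (p.1 - p.2)) := by positivity
  have t3 : 0 ≤ K⁻¹ * (EX_h ρ p.1 * EX_h ρ p.2) := by positivity
  rcases le_or_gt r ‖p.1 - p.2‖ with hc | hc
  · rw [max_eq_left hc, sub_self, zero_mul]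
    linarith
  · rw [max_eq_right hc.le]
    have hgd : EN_g (p.1 - p.2) = ‖p.1 - p.2‖⁻¹ := by
      unfold EN_g
      rw [indicator_of_mem]
      rw [mem_ball_zero_iff]
      linarith
    have hrg : 1 ≤ r * EN_g (p.1 - p.2) := by
      rw [hgd, ← div_eq_mul_inv, one_le_div hd]
      exact hc.le
    have hexp : Real.exp (Real.log r - Real.log ‖p.1 - p.2‖) = r * EN_g (p.1 - p.2) := by
      rw [Real.exp_sub, Real.exp_log hr, Real.exp_log hd, hgd, div_eq_mul_inv]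
    have hy := EN_young ha (Real.log r - Real.log ‖p.1 - p.2‖)
    rw [hexp] at hy
    have hh : ρ p.1 * Real.log (ρ p.1) ≤ EX_h ρ p.1 := le_max_left _ _
    have hy' : ρ p.1 * (Real.log r - Real.log ‖p.1 - p.2‖) ≤
        EX_h ρ p.1 + r * EN_g (p.1 - p.2) := by linarith
    -- `b ≤ e^K + h(b) / K`
    have hbK : ρ p.2 ≤ Real.exp K + K⁻¹ * EX_h ρ p.2 := by
      rcases le_or_gt (ρ p.2) (Real.exp K) with hq | hq
      · have : 0 ≤ K⁻¹ * EX_h ρ p.2 := by positivity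
        linarith
      · have hlog : K ≤ Real.log (ρ p.2) := by
          rw [Real.le_log_iff_exp_le ((Real.exp_pos K).trans hq)]
          exact hq.le
        have h3 : ρ p.2 * K ≤ EX_h ρ p.2 :=
          (mul_le_mul_of_nonneg_left hlog hb).trans (le_max_left _ _)
        have h4 : ρ p.2 ≤ K⁻¹ * EX_h ρ p.2 := by
          rw [inv_mul_eq_div, le_div_iff₀ hK]
          exact h3
        have := Real.exp_pos K
        linarith
    have hm1 := mul_le_mul_of_nonneg_right hy' hb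
    have hm2 := mul_le_mul_of_nonneg_left hbK h1
    have hm3 : Real.exp K * EX_h ρ p.1 * 1 ≤ Real.exp K * EX_h ρ p.1 * (r * EN_g (p.1 - p.2)) :=
      mul_le_mul_of_nonneg_left hrg (by positivity)
    calc (Real.log r - Real.log ‖p.1 - p.2‖) * (ρ p.1 * ρ p.2)
        = ρ p.1 * (Real.log r - Real.log ‖p.1 - p.2‖) * ρ p.2 := by ring
      _ ≤ (EX_h ρ p.1 + r * EN_g (p.1 - p.2)) * ρ p.2 := hm1
      _ = r * (ρ p.2 * EN_g (p.1 - p.2)) + EX_h ρ p.1 * ρ p.2 := by ring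
      _ ≤ r * (ρ p.2 * EN_g (p.1 - p.2)) +
          EX_h ρ p.1 * (Real.exp K + K⁻¹ * EX_h ρ p.2) := by linarith
      _ = r * (ρ p.2 * EN_g (p.1 - p.2)) + (Real.exp K * EX_h ρ p.1 * 1 +
          K⁻¹ * (EX_h ρ p.1 * EX_h ρ p.2)) := by ring
      _ ≤ r * (ρ p.2 * EN_g (p.1 - p.2)) + (Real.exp K * EX_h ρ p.1 * (r * EN_g (p.1 - p.2)) +
          K⁻¹ * (EX_h ρ p.1 * EX_h ρ p.2)) := by linarith
      _ = _ := by ring

theorem EX_near (C : ℝ) {κ : ℝ} (hκ : 0 < κ) : ∃ r : ℝ, 0 < r ∧ r ≤ 1 ∧ ∀ ρ : ℂ → ℝ, Dens ρ →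
    mo ρ ≤ 1 → -C ≤ Sent ρ →
    En ρ ρ ≤ (∫ p, ker r (p.1 - p.2) ∂((wd ρ).prod (wd ρ))) + κ := by
  set A : ℝ := |C| + 1 + Real.pi with hA
  have hA0 : 0 < A := by
    have := abs_nonneg C
    have := Real.pi_pos
    positivity
  set K : ℝ := 2 * A ^ 2 / κ with hKd
  have hK : 0 < K := by positivity
  set G : ℝ := ∫ x, EN_g x with hG
  have hG0 : 0 ≤ G := integral_nonneg fun x => EN_g_nonneg x
  set D : ℝ := G + Real.exp K * A * G + 1 with hD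
  have hD0 : 0 < D := by positivity
  refine ⟨min 1 (κ / (2 * D)), lt_min one_pos (by positivity), min_le_left _ _, ?_⟩
  set r : ℝ := min 1 (κ / (2 * D)) with hr
  have hr0 : 0 < r := lt_min one_pos (by positivity)
  have hr1 : r ≤ 1 := min_le_left _ _
  have hrD : r * D ≤ κ / 2 := by
    have h1 : r ≤ κ / (2 * D) := min_le_right _ _
    calc r * D ≤ κ / (2 * D) * D := mul_le_mul_of_nonneg_right h1 hD0.le
      _ = κ / 2 := by field_simp
  intro ρ h hm hS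
  set H : ℝ := ∫ x, EX_h ρ x with hH
  have hH0 : 0 ≤ H := integral_nonneg fun x => EX_h_nonneg ρ x
  have hHA : H ≤ A := (EX_h_le h hm hS).trans (by
    have := le_abs_self C
    rw [hA]
    linarith)
  obtain ⟨i1, e1⟩ := EX_conv h.int
  obtain ⟨i2, e2⟩ := EX_conv' (EX_h_int h)
  have i3 : Integrable (fun p : ℂ × ℂ => EX_h ρ p.1 * EX_h ρ p.2) := by
    have := (EX_h_int h).mul_prod (EX_h_int h)
    rw [Measure.volume_eq_prod]
    exact this
  have e3 : ∫ p : ℂ × ℂ, EX_h ρ p.1 * EX_h ρ p.2 = H * H := by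
    rw [Measure.volume_eq_prod]
    exact integral_prod_mul (EX_h ρ) (EX_h ρ)
  have iL : Integrable fun p : ℂ × ℂ =>
      (-(1 / (4 * Real.pi)) * Real.log ‖p.1 - p.2‖) * (ρ p.1 * ρ p.2) -
        ker r (p.1 - p.2) * (ρ p.1 * ρ p.2) := (RE_En_int h).sub (RE_ker_int h r)
  have hpi : 1 / (4 * Real.pi) ≤ 1 := by
    rw [div_le_one (by positivity)]
    have := Real.pi_gt_three
    linarith
  have hpi0 : 0 ≤ 1 / (4 * Real.pi) := by positivity
  have hmono : ∫ p : ℂ × ℂ, ((-(1 / (4 * Real.pi)) * Real.log ‖p.1 - p.2‖) * (ρ p.1 * ρ p.2) -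
        ker r (p.1 - p.2) * (ρ p.1 * ρ p.2)) ≤
      ∫ p : ℂ × ℂ, (r * (ρ p.2 * EN_g (p.1 - p.2)) +
        Real.exp K * r * (EX_h ρ p.1 * EN_g (p.1 - p.2)) +
        K⁻¹ * (EX_h ρ p.1 * EX_h ρ p.2)) := by
    refine integral_mono_ae iL (((i1.const_mul r).add (i2.const_mul (Real.exp K * r))).add
      (i3.const_mul K⁻¹)) ?_
    filter_upwards [RE_ae_ne] with p hp
    have hq := EX_near_pt h hr0 hr1 hK p hp
    have h0 : 0 ≤ (Real.log (max ‖p.1 - p.2‖ r) - Real.log ‖p.1 - p.2‖) * (ρ p.1 * ρ p.2) := by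
      refine mul_nonneg ?_ (mul_nonneg (h.nonneg _) (h.nonneg _))
      have := Real.log_le_log (norm_pos_iff.2 hp) (le_max_left ‖p.1 - p.2‖ r)
      linarith
    calc (-(1 / (4 * Real.pi)) * Real.log ‖p.1 - p.2‖) * (ρ p.1 * ρ p.2) -
          ker r (p.1 - p.2) * (ρ p.1 * ρ p.2)
        = 1 / (4 * Real.pi) * ((Real.log (max ‖p.1 - p.2‖ r) - Real.log ‖p.1 - p.2‖) *
            (ρ p.1 * ρ p.2)) := by
          unfold ker
          ring
      _ ≤ 1 * ((Real.log (max ‖p.1 - p.2‖ r) - Real.log ‖p.1 - p.2‖) * (ρ p.1 * ρ p.2)) :=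
          mul_le_mul_of_nonneg_right hpi h0
      _ ≤ _ := by rw [one_mul]; exact hq
  have j1 : Integrable (fun p : ℂ × ℂ => r * (ρ p.2 * EN_g (p.1 - p.2)) +
      Real.exp K * r * (EX_h ρ p.1 * EN_g (p.1 - p.2))) :=
    (i1.const_mul r).add (i2.const_mul (Real.exp K * r))
  rw [integral_sub (RE_En_int h) (RE_ker_int h r), ← RE_En_eq,
    integral_add j1 (i3.const_mul K⁻¹),
    integral_add (i1.const_mul r) (i2.const_mul (Real.exp K * r)), integral_const_mul,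
    integral_const_mul, integral_const_mul, e1, e2, e3, h.one, ← hH, ← hG,
    ← RE_prod_integral h (fun p => ker r (p.1 - p.2))] at hmono
  have b1 : K⁻¹ * (H * H) ≤ κ / 2 := by
    have h1 : H * H ≤ A ^ 2 := by nlinarith
    calc K⁻¹ * (H * H) ≤ K⁻¹ * A ^ 2 := mul_le_mul_of_nonneg_left h1 (by positivity)
      _ = κ / 2 := by
        rw [hKd]
        field_simp
  have b2 : r * (1 * G) + Real.exp K * r * (H * G) ≤ r * D := by
    have h1 : Real.exp K * r * (H * G) ≤ Real.exp K * r * (A * G) :=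
      mul_le_mul_of_nonneg_left (mul_le_mul_of_nonneg_right hHA hG0) (by positivity)
    have h2 : r * D = r * (1 * G) + Real.exp K * r * (A * G) + r := by
      rw [hD]
      ring
    linarith
  linarith

theorem EX_high {e : ℝ} (hne : ∃ ρ, Dens ρ ∧ mo ρ ≤ 1 ∧ e ≤ En ρ ρ) :
    ∃ ρ, Dens ρ ∧ mo ρ ≤ 1 ∧ e ≤ En ρ ρ ∧
      ∀ ρ', Dens ρ' → mo ρ' ≤ 1 → e ≤ En ρ' ρ' → Sent ρ' ≤ Sent ρ :=
  EX_highN (fun C _ hκ => EX_near C hκ) hne

end

end Pool.Agent.Lib_helper68.MC
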